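import Mathlib
import Pool.Agent.MP_51ad50_an.Main

set_option autoImplicit false

namespace Pool.Agent.Results.MP_51ad50_an.JordanPair

open Pool.Agent.NumHyp

/-- Let `T` be a bounded operator on a complex Banach space and let `l₁, l₂` satisfy
`ker (T - l_j)² ≠ ker (T - l_j)`, `|l₁| = |l₂| ≥ 1`, with `l₁/|l₁|`, `l₂/|l₂|` independent.
Then `T` is strongly numerically hypercyclic. -/
theorem result.{u} : ∀ (X : Type u) [NormedAddCommGroup X] [NormedSpace ℂ X] [CompleteSpace X]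
    (T : X →L[ℂ] X) (l₁ l₂ : ℂ),
    ((T - l₁ • ContinuousLinearMap.id ℂ X) ^ 2).ker ≠
      (T - l₁ • ContinuousLinearMap.id ℂ X).ker →
    ((T - l₂ • ContinuousLinearMap.id ℂ X) ^ 2).ker ≠
      (T - l₂ • ContinuousLinearMap.id ℂ X).ker →
    ‖l₁‖ = ‖l₂‖ → 1 ≤ ‖l₁‖ →
    Independent (l₁ / ‖l₁‖) (l₂ / ‖l₂‖) →
    StronglyNumericallyHypercyclic T :=
  fun X _ _ _ T l₁ l₂ h₁ h₂ hl hge hind => strongly X T l₁ l₂ h₁ h₂ hl hge hind

end Pool.Agent.Results.MP_51ad50_an.JordanPair
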